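import Pool.Agent.Q22.McLain2

/-! A pseudocentral Baer group that is not a Fitting group. -/

namespace Pool.Agent.Results.MP_a7b7fa_al.NotFitting

/-- There is a group `G` such that the intersection of the normal closures of the centralizers of
the elements of `G` is `G`, every cyclic subgroup of `G` is subnormal in `G`, and the subgroup
generated by the nilpotent normal subgroups of `G` is not `G`. -/
theorem result :
    ∃ (G : Type) (_ : Group G),
      (⨅ g : G, Subgroup.normalClosure ((Subgroup.centralizer {g} : Subgroup G) : Set G)) = ⊤ ∧
      (∀ g : G, (Subgroup.zpowers g).IsSubnormal) ∧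
      sSup {N : Subgroup G | N.Normal ∧ Group.IsNilpotent N} ≠ ⊤ := by
  refine ⟨Q22.ML.Gr, inferInstance, ?_, Q22.ML.baer, Q22.ML.not_fitting⟩
  rw [iInf_eq_top]
  exact Q22.ML.normalClosure_eq_top

end Pool.Agent.Results.MP_a7b7fa_al.NotFitting
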